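import Pool.Agent.T2H41.ND
import Pool.Agent.T2H41.MB

/-!
MP_1e3e9c_ag, Q1, in families: Kobayashi hyperbolicity and the positivity of the canonical classes of
all subvarieties are one Zariski open condition, defined over the integers, on the members of a family
of subvarieties of projective toric varieties which are given by few monomials with divisible exponents
and arbitrary coefficients. So in these families hyperbolicity does not depend on the topology of the
field of complex numbers: it is invariant under all its automorphisms, as it should be by Kobayashi's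
conjecture and its converse for subvarieties.

`Supports s N T` (`Pool/Agent/T2H41/ND.lean`): for each `e` the exponent vectors in the finite set `T e`
have the same degree, and `T e` has at most two elements, or it has at most `s` elements and their
entries are divisible by some `N' ≥ N`. `Fc T c e` (`NC.lean`) is the form with the exponents in `T e`
and the coefficients `c (e, α)`, and `X_c` is the projective variety with the equations `Fc T c e = 0`.
(The forms with two monomials can be, for suitable coefficients, the equations of an arbitrary projective
toric variety, normal or not.) `DimLe ∅ F m` (`LA.lean`): all closed subvarieties of `{F = 0}` have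
dimension at most `m`.

`Brody F` (`Y190/PH/Tor.lean`): all entire curves in `X = {F = 0}` are constant. `HyperbolicNear F`
(`R505/KA/Sub.lean`): all projective varieties near `X`, and `X` itself, are hyperbolic.
`NoRationalCurves F` (`R869/WLang.lean`): all morphisms from the projective line to `X` are constant.
`SubVar F K w y` (`W602/GT`): `y` is the generic point of a closed subvariety of `X` of dimension `w`
with function field `K`. The canonical classes are those of smooth projective models, given by the
function field `K` and the dimension `w` (`Pool/Agent/W602/GT`): `GeneralType` (big), `KodGe` with `0` (a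
multiple is effective), `Psef` (pseudo-effective); `Ruled`: birational to a product with the projective
line.
-/

set_option autoImplicit false
set_option linter.overlappingInstances false

open FF Pool.Agent.W602.GT Pool.Agent.T2H41.LA Pool.Agent.T2H41.NA
open Pool.Agent.R505.KA (HyperbolicNear ruled_of_gm near_iff)
open Pool.Agent.R869.Wd (NoRationalCurves)
open Pool.Agent.Y190.PH (Brody)

namespace Pool.Agent.Results.MP_1e3e9c_ag.CanonicalLociZariskiOpen

/-- All closed subvarieties of positive dimension `w` of `X = {F = 0}`, with function field `K`, have
the property `P`. -/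
def AllSub {k : Type} [Field k] {n : ℕ} {ι : Type}
    (P : (K : Type) → [Field K] → [Algebra k K] → ℕ → Prop)
    (F : ι → MvPolynomial (Fin (n + 1)) k) : Prop :=
  ∀ (K : Type) [Field K] [Algebra k K] (w : ℕ) (y : Fin (n + 1) → K), 1 ≤ w →
    SubVar F K w y → P K w

/-- The member `X_c` of the family is in the Zariski open set which is given by the set `Z` of
polynomials with integer coefficients: some `P` in `Z` does not vanish at the coefficients `c`. -/
def InOpen {σ k : Type} [Field k] (Z : Set (MvPolynomial σ ℤ)) (c : σ → k) : Prop :=
  ∃ P ∈ Z, (MvPolynomial.aeval c : _ →ₐ[ℤ] k) P ≠ 0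

/-- Let `T` be finitely many finite sets of exponents as above, `s ≥ 2`, `N ≥ (s - 1) ^ 2`. There is a
set `Z` of polynomials with integer coefficients in the coefficients `c`, depending only on `T`, such
that the following holds for the Zariski open set `U` of the `c` such that `P (c) ≠ 0` for some `P`
in `Z`.

**(1)** Over all algebraically closed fields of characteristic zero, if `m ≥ 1` is at least the dimension
of `X_c` and `N ≥ m (s + 1) (s - 1) (s - 2) / 2`, the following are equivalent: `c` is in `U`; all
closed subvarieties of positive dimension of `X_c` have a big canonical class (of a smooth model); for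
all of them a multiple of the canonical class is effective; all of them have a pseudo-effective canonical
class; none of them is ruled; `X_c` contains no rational curve.

**(2)** Over the complex numbers, `X_c` is hyperbolic if and only if `c` is in `U`, if and only if all
projective varieties near `X_c` (which need not be in the family) are hyperbolic. For all endomorphisms
`φ` of the field of complex numbers `X_φ(c)` is hyperbolic if and only if `X_c` is. -/
theorem result {n : ℕ} {ι : Type} [Finite ι] {T : ι → Finset (Fin (n + 1) →₀ ℕ)} {s N : ℕ}
    (hs : 2 ≤ s) (hN : 1 ≤ N) (hsq : (s - 1) ^ 2 ≤ N) (hT : Supports s N T) :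
    ∃ Z : Set (MvPolynomial (ι × (Fin (n + 1) →₀ ℕ)) ℤ),
      (∀ (k : Type) [Field k] [IsAlgClosed k] [CharZero k] (c : ι × (Fin (n + 1) →₀ ℕ) → k) (m : ℕ),
        1 ≤ m → DimLe ∅ (Fc T c) m → m * ((s + 1) * ((s - 1) * (s - 2) / 2)) ≤ N →
        [InOpen Z c, AllSub (fun K _ _ w => GeneralType k K w) (Fc T c),
          AllSub (fun K _ _ w => KodGe k K w (fun _ => False) 0) (Fc T c),
          AllSub (fun K _ _ w => Psef k K w (fun _ => False)) (Fc T c),
          AllSub (fun K _ _ _ => ¬ Ruled k K) (Fc T c), NoRationalCurves (Fc T c)].TFAE) ∧
      ∀ c : ι × (Fin (n + 1) →₀ ℕ) → ℂ,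
        (Brody (Fc T c) ↔ InOpen Z c) ∧ (HyperbolicNear (Fc T c) ↔ InOpen Z c) ∧
        ∀ φ : ℂ →+* ℂ, Brody (Fc T (fun p => φ (c p))) ↔ Brody (Fc T c) := by
  obtain ⟨A, Z, -, h2, h3⟩ := open_main hs hN hsq hT
  refine ⟨Z, fun k _ _ _ c m hm1 hm hNm => ?_, fun c => ⟨(h3 c).1,
    (near_iff fun e => Fc_form hT c e).symm.trans (h3 c).1, (h3 c).2.2⟩⟩
  obtain ⟨h4, h5⟩ := h2 k c
  have h6 := h5 m hm1 hm hNm
  tfae_have 1 ↔ 2 := h6.symm
  tfae_have 2 → 3 := fun h K _ _ w y hw hy => kod_of_general (h K w y hw hy)
  tfae_have 3 → 4 := fun h K _ _ w y hw hy => psef_of_kodGe (h K w y hw hy)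
  tfae_have 4 → 5 := by
    intro h K _ _ w y hw hy
    rintro ⟨C, σ, h1, h2⟩
    exact not_psef_of hy.dim C h1 h2 (h K w y hw hy)
  tfae_have 5 → 1 := by
    intro h
    have h7 : (∃ P ∈ Z, (MvPolynomial.aeval c : _ →ₐ[ℤ] k) P ≠ 0) ↔
      ∀ P, ¬ GmCurve (Fc T c) P := h4.out 0 4
    refine h7.2 fun P hP => ?_
    obtain ⟨K, i1, i2, y, hy, hr⟩ := ruled_of_gm (fun e => Fc_form hT c e) hP
    exact h K 1 y le_rfl hy hr
  tfae_have 1 ↔ 6 := h4.out 0 3
  tfae_finish

end Pool.Agent.Results.MP_1e3e9c_ag.CanonicalLociZariskiOpen
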