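import Pool.Agent.T2H41.TE

/-!
MP_1e3e9c_ag, Q1: Kobayashi hyperbolicity and canonical classes, for the closed subsets of any fixed
projective toric variety which are given by linear combinations of the powers `x_j ^ d` and of `s`
further monomials of degree `d`, for almost all choices of these monomials and all coefficients, and
for their irreducible components.

Let finitely many pairs `p e`, `q e` of exponent vectors of the same degree be fixed. Forms with the two
monomials `x ^ (p e)`, `x ^ (q e)` are for instance the equations `x ^ (p e) = c x ^ (q e)` of an
arbitrary projective toric variety `T` in `P^n`, normal or not (a product of projective spaces, a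
weighted projective space, a Segre-Veronese variety, ...). The other equations of `X` are then forms of
degree `d` on `T`.

`TuplesIn I d`, `AlmostAllIn I P` (`Pool/Agent/R869/SDefs.lean`): the tuples `a` of exponent vectors of
degree `d`, the `i`-th one of a monomial in the variables from the set `I i`; the proportion of the
tuples with the property `P d a` among all of them tends to `1` for `d → ∞`. `withPowers d a`
(`WDensDefs.lean`): the set of the exponent vectors `a i` and of those of the powers `x_j ^ d`.

The canonical classes are those of smooth projective models, given by the function field `K` and the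
dimension `w`: `GeneralType` (big), `KodGe` with `0` (a multiple is effective), `Psef`
(pseudo-effective), `Ruled` (birational to a product with the projective line), see
`Pool/Agent/W602/GT` (starting repository). `SubVar F K w y`: `y` is the generic point of a closed
subvariety `V` of `X = {F = 0}` with function field `K`, of dimension `w`; `IsComponent F y`: outside of
a hypersurface which does not contain `V`, all points of `X` are in `V`; `eqs k y` (`T2H41/TE.lean`): the
system of all the forms which vanish on `V`. `AllSub P F` (`R505/KA/Sub.lean`): all closed subvarieties
of positive dimension of `X` have the property `P`. `Brody F`: all entire curves in `X` are constant;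
`HyperbolicNear F`: all varieties near `X`, and `X` itself, are hyperbolic; `NoRationalCurves F`: all
morphisms from the projective line to `X` are constant.

`WideRel U T N` (`Pool/Agent/T2H41/TA.lean`): whenever at most `n` pairs of elements of the same finite
sets `T e`, in the variables of a set `I ⊇ U`, are such that the sum of the segments between them has
positive width in all directions `u` which are not constant on `I`, its width is at least `N` in those
which are minimal on `U` and for which the segments in the sets `T e` with at most two elements have
width `0`.
-/

set_option autoImplicit false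
set_option linter.overlappingInstances false

open FF MvPolynomial Pool.Agent.W602.GT Pool.Agent.R869.Wd Pool.Agent.T2H41.TW
open Pool.Agent.R505.KA
open Pool.Agent.Y190.PH (Brody)

namespace Pool.Agent.Results.MP_1e3e9c_ag.ToricAlmostAll

/-- For `X = {F = 0}`, the following are equivalent: `X` is hyperbolic; all closed subvarieties of
positive dimension have a big canonical class (are of general type); for all of them a multiple of the
canonical class is effective; all of them have a pseudo-effective canonical class; none of them is
ruled; `X` contains no rational curves; all projective varieties near `X`, and `X` itself, are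
hyperbolic. -/
def Equivalent {n : ℕ} {ι : Type} (F : ι → MvPolynomial (Fin (n + 1)) ℂ) : Prop :=
  [Brody F, AllSub (fun K _ _ w => GeneralType ℂ K w) F,
    AllSub (fun K _ _ w => KodGe ℂ K w (fun _ => False) 0) F,
    AllSub (fun K _ _ w => Psef ℂ K w (fun _ => False)) F,
    AllSub (fun K _ _ _ => ¬ Ruled ℂ K) F, NoRationalCurves F, HyperbolicNear F].TFAE

/-- For all irreducible components `V` of positive dimension of `X = {F = 0}`, equivalent are: the
canonical class of `V` is big; a multiple of it is effective; it is pseudo-effective; `V` is not ruled.
They are true if `V` is hyperbolic, or if `V` contains no rational curves. -/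
def Components {n : ℕ} {ι : Type} (F : ι → MvPolynomial (Fin (n + 1)) ℂ) : Prop :=
  ∀ (K : Type) [Field K] [Algebra ℂ K] (w : ℕ) (y : Fin (n + 1) → K), 1 ≤ w → SubVar F K w y →
    IsComponent F y →
    [GeneralType ℂ K w, KodGe ℂ K w (fun _ => False) 0, Psef ℂ K w (fun _ => False),
      ¬ Ruled ℂ K].TFAE ∧ (Brody (eqs ℂ y) → GeneralType ℂ K w) ∧
      (NoRationalCurves (eqs ℂ y) → GeneralType ℂ K w)

/-- Each form `F e` is a linear combination of the monomials with the exponent vectors `a i` and of the
powers `x_j ^ d`, or of the two monomials with the exponent vectors `p e'` and `q e'`, for some `e'`. -/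
def HasExponents {n s t : ℕ} {ι : Type} (p q : Fin t → (Fin (n + 1) →₀ ℕ))
    (d : ℕ) (a : Fin s → (Fin (n + 1) →₀ ℕ)) (F : ι → MvPolynomial (Fin (n + 1)) ℂ) : Prop :=
  ∀ e, (F e).support ⊆ withPowers d a ∨ ∃ e', (F e).support ⊆ {p e', q e'}

theorem components {n s N : ℕ} {ι : Type} {T : ι → Finset (Fin (n + 1) →₀ ℕ)}
    {F : ι → MvPolynomial (Fin (n + 1)) ℂ} (hC : SysT ∅ T F s N) : Components F :=
  fun _ _ _ _ _ hw hy hcomp => ⟨(comp_tfae hC hw hy hcomp).1, comp_brody hC hw hy hcomp,
    (comp_tfae hC hw hy hcomp).2⟩

/-- (1) Fix `n`, `s`, finitely many pairs `p e`, `q e` of exponent vectors of the same degree, and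
nonempty sets of variables `I 1, …, I s`. For almost all tuples `a` of monomials of degree `d` in
`n + 1` variables, the `i`-th one in the variables from `I i`, the following is true for all systems
of forms `F 1, …, F m` (`m` arbitrary) with these monomials and pure powers, or with the two
monomials of one of the fixed pairs, with arbitrary coefficients: the seven conditions in `Equivalent`
are equivalent for `X = {F = 0}`; a component of `X` of positive dimension has a big canonical class if
and only if it is not ruled, in particular if it is hyperbolic (`Components`).

(2) Let `T e` be finitely many sets of at most `s` exponent vectors, `s ≥ 1`, which are `N`-wide relative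
to those with at most two elements, and `N > n s (s - 1) (s - 2) / 2`. The same is true for all the
systems of forms with exponents in the `T e`. -/
theorem result :
    (∀ (n s t : ℕ) (p q : Fin t → (Fin (n + 1) →₀ ℕ)), (∀ e, ∑ j, p e j = ∑ j, q e j) →
      ∀ I : Fin s → Finset (Fin (n + 1)), (∀ i, (I i).Nonempty) →
      AlmostAllIn I fun d a => ∀ (m : ℕ) (F : Fin m → MvPolynomial (Fin (n + 1)) ℂ),
        HasExponents p q d a F → Equivalent F ∧ Components F) ∧
    ∀ (n s N : ℕ) (ι : Type) [Finite ι] (T : ι → Finset (Fin (n + 1) →₀ ℕ)), 1 ≤ s →
      (∀ e, (T e).card ≤ s) → WideRel ∅ T N → n * (s * ((s - 1) * (s - 2) / 2)) < N →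
      ∀ F : ι → MvPolynomial (Fin (n + 1)) ℂ, (∀ e, (F e).support ⊆ T e) →
        (∀ e, IsForm (F e)) → Equivalent F ∧ Components F := by
  classical
  constructor
  · intro n s t p q hpq I hI
    refine (almost_sys p q hpq I hI).mono fun d a _ h => ?_
    obtain ⟨s', N, A, T, h⟩ := h
    intro m F hF
    obtain ⟨c, hc⟩ := h ℂ m F hF
    exact ⟨canonT (hc ∅).1 (hc ∅).2, components (hc ∅).1⟩
  · intro n s N ι _ T hs hT hW hN F hFT hF
    have hN' : s * (n * Pool.Agent.R869.tri (s - 1)) < N := by
      rw [tri_choose]
      refine lt_of_le_of_lt (le_of_eq ?_) hN
      ring
    obtain ⟨A, hA⟩ := unifT (U := ∅) T hs hT hW hN'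
    have hC : SysT ∅ T F s N := ⟨hF, hs, hFT, hT, hW, hN'⟩
    exact ⟨canonT hC (hA ℂ F hFT hF), components hC⟩

end Pool.Agent.Results.MP_1e3e9c_ag.ToricAlmostAll
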