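import Pool.Agent.T2H41.MB
import Pool.Agent.TH466.QT.Hyp

/-!
MP_1e3e9c_ag, Q1: rational curves (in particular Kobayashi hyperbolicity) and canonical classes, for
all projective varieties dominated, with bounded degree, by generically finite covers of subvarieties of
projective toric varieties given by few monomials with divisible exponents.

`HighT s N F` (`Pool/Agent/T2H41/LB.lean`): all forms `F e` are sums of at most `s` powers of linear
forms with exponents at least `N`; or `s ≥ 2` and each `F e` has at most two monomials, with arbitrary
exponents, or at most `s` monomials, with exponents divisible by some `N' ≥ N`. The forms with two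
monomials can be the equations of an arbitrary projective toric variety `T` in `P^n`, for instance of a
product of projective spaces or a weighted projective space; the others give a closed subset of `T`.

The canonical classes are those of smooth projective models, given by the function field `K` and the
dimension `w`: `GeneralType` (big), `Psef` (pseudo-effective), `Ruled` (birational to a product with the
projective line), see `Pool/Agent/W602/GT` (starting repository). `SubVar F K w y`: `K`, `w`, `y` are
the function field, the dimension and the generic point of a closed subvariety of `X = {F = 0}`;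
`IsComponent F y`: it is an irreducible component of `X`. `NoRationalCurves F`: all morphisms from the
projective line to `X` are constant. `coords k y` is the field generated by the ratios of the
coordinates of `y`; `NoRationalCurve k x`: there is no rational curve on the projective variety with the
generic point `x`.
-/

set_option autoImplicit false
set_option linter.overlappingInstances false

open FF Pool.Agent.W602.GT Pool.Agent.T2H41.LA Pool.Agent.R505.KA
open Pool.Agent.R869.Wd (NoRationalCurves)
open Pool.Agent.W619.PQ (IsUniruled)
open Pool.Agent.TH466.QT.RC (NoRationalCurve)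

namespace Pool.Agent.Results.MP_1e3e9c_ag.ToricDominated

/-- Let `k` be an algebraically closed field of characteristic zero, `X = {F = 0}` as above
(`HighT s N F`) over `k`, and `N ≥ r w (s + 4) (s - 1) (s - 2) / 2`, `r, w ≥ 1`.

If `X` contains no rational curve, then all varieties `Y` (with function field `L`) are of
general type for which there are a variety `V` of dimension `w` with a generically finite rational map
to `X` (whose image is any subvariety of `X`) and a dominant rational map `V ⇢ Y` of degree at most `r`.

Let `V` be an irreducible component of dimension `w` of `X`. Either `V` is not ruled, and all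
varieties `Y` with generically finite dominant rational maps `Y' ⇢ V` (of any degree) and `Y' ⇢ Y` (of
degree at most `r`) are of general type; or `V` is ruled, and all varieties `Y` dominated by `V` with
finite degree are uniruled and have no pseudo-effective canonical class. A projective variety `Y`
dominated by `V` with degree at most `r` which contains no rational curve, in particular every such
Kobayashi hyperbolic `Y`, has a big canonical class. -/
theorem result (k : Type) [Field k] [IsAlgClosed k] [CharZero k] {n : ℕ} {ι : Type}
    {F : ι → MvPolynomial (Fin (n + 1)) k} {s N w r : ℕ} (hF : HighT s N F) (hN1 : 1 ≤ N)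
    (hw : 1 ≤ w) (hr : 1 ≤ r) (hN : r * (w * ((s + 4) * ((s - 1) * (s - 2) / 2))) ≤ N) :
    (NoRationalCurves F → ∀ (K' L : Type) [Field K'] [Field L] [Algebra k K'] [Algebra k L]
      [Algebra L K'] [IsScalarTower k L K'] [FiniteDimensional L K'],
      Algebra.trdeg k K' = w → ∀ y : Fin (n + 1) → K', y ≠ 0 → (∀ e, val y (F e) = 0) →
      Algebra.IsAlgebraic (coords k y) K' → Module.finrank L K' ≤ r → GeneralType k L w) ∧
    ∀ (K : Type) [Field K] [Algebra k K] (y : Fin (n + 1) → K), SubVar F K w y →
      IsComponent F y →
      ((¬ Ruled k K ∧ ∀ (K' L : Type) [Field K'] [Field L] [Algebra k K'] [Algebra k L]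
          [Algebra K K'] [Algebra L K'] [IsScalarTower k K K'] [IsScalarTower k L K']
          [Algebra.IsAlgebraic K K'] [FiniteDimensional L K'], Module.finrank L K' ≤ r →
          GeneralType k L w) ∨
        (Ruled k K ∧ ∀ (L : Type) [Field L] [Algebra k L] [Algebra L K] [IsScalarTower k L K]
          [FiniteDimensional L K], IsUniruled k L w ∧ ¬ Psef k L w (fun _ => False))) ∧
      ∀ (L : Type) [Field L] [Algebra k L] [Algebra L K] [IsScalarTower k L K]
        [FiniteDimensional L K], Module.finrank L K ≤ r → ∀ (M : ℕ) (x : Fin (M + 1) → L),
        x 0 ≠ 0 → coords k x = ⊤ → NoRationalCurve k x → GeneralType k L w := by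
  refine ⟨fun hno K' L _ _ _ _ _ _ _ hdim y hy hyF hgen hdeg =>
    general_of_no_curve hF hN1 hno hw hdim hy hyF hgen hdeg hN, ?_⟩
  intro K _ _ y hy hcomp
  rcases component_dichotomyT hF hN1 hw hy hcomp hr hN with ⟨h1, h2⟩ | ⟨h1, h2⟩
  · exact ⟨Or.inl ⟨h1, h2⟩, fun L _ _ _ _ _ hdeg M x _ _ _ => h2 K L hdeg⟩
  · exact ⟨Or.inr ⟨h1, fun L _ _ _ _ _ => ⟨(h2 L).1, (h2 L).2.1⟩⟩,
      fun L _ _ _ _ _ hdeg M x hx hgen hno =>
        absurd hno (Pool.Agent.TH466.QT.RC.curve_of_ruled (K := K) h1 hx hgen)⟩

end Pool.Agent.Results.MP_1e3e9c_ag.ToricDominated
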