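import Pool.Agent.T2H41.MB

/-!
MP_1e3e9c_ag, Q1: Kobayashi hyperbolicity and canonical classes, for the subvarieties of projective
toric varieties which are given by few monomials with divisible exponents.

`HighT s N F` (`Pool/Agent/T2H41/LB.lean`): all forms `F e` are sums of at most `s` powers of linear
forms with exponents at least `N`; or `s ≥ 2` and each `F e` has at most two monomials, with arbitrary
exponents, or at most `s` monomials, with exponents divisible by some `N' ≥ N`. The forms with two
monomials can be the equations of an arbitrary projective toric variety `T` in `P^n`, for instance of a
product of projective spaces or a weighted projective space; the others give a closed subset of `T`.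
`DimLe ∅ F m` (`LA.lean`): all closed subvarieties of `X = {F = 0}` have dimension at most `m`.

The canonical classes are those of smooth projective models, given by the function field `K` and the
dimension `w`: `GeneralType` (big), `KodGe` with `0` (a multiple is effective), `Psef`
(pseudo-effective), `Ruled` (birational to a product with the projective line), see
`Pool/Agent/W602/GT` (starting repository). `AllSub P F` (`R505/KA/Sub.lean`): all closed subvarieties
of positive dimension of `X` have the property `P`. `Brody F`: all entire curves in `X` are constant;
`HyperbolicNear F`: all varieties near `X` are hyperbolic; `NoRationalCurves F`: all morphisms from the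
projective line to `X` are constant.
-/

set_option autoImplicit false
set_option linter.overlappingInstances false

open FF Pool.Agent.W602.GT Pool.Agent.T2H41.LA Pool.Agent.R505.KA
open Pool.Agent.R869.Wd (NoRationalCurves)
open Pool.Agent.Y190.PH (Brody)

namespace Pool.Agent.Results.MP_1e3e9c_ag.ToricKobayashi

/-- Let `X = {F = 0}` be a complex projective variety as above (`HighT s N F`), `m ≥ 1` at least
its dimension and `N ≥ m (s + 1) (s - 1) (s - 2) / 2`. Equivalent are: `X` is hyperbolic; all closed
subvarieties of positive dimension have a big canonical class; for all of them a multiple of the
canonical class is effective; all of them have a pseudo-effective canonical class; none of them is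
ruled; `X` contains no rational curve; all projective varieties near `X`, and `X` itself, are
hyperbolic. -/
theorem result {n : ℕ} {ι : Type} {F : ι → MvPolynomial (Fin (n + 1)) ℂ} {s N m : ℕ}
    (hF : HighT s N F) (hN1 : 1 ≤ N) (hm1 : 1 ≤ m) (hm : DimLe ∅ F m)
    (hN : m * ((s + 1) * ((s - 1) * (s - 2) / 2)) ≤ N) :
    [Brody F, AllSub (fun K _ _ w => GeneralType ℂ K w) F,
      AllSub (fun K _ _ w => KodGe ℂ K w (fun _ => False) 0) F,
      AllSub (fun K _ _ w => Psef ℂ K w (fun _ => False)) F,
      AllSub (fun K _ _ _ => ¬ Ruled ℂ K) F, NoRationalCurves F, HyperbolicNear F].TFAE :=
  kob_tfae hF hN1 hm1 hm hN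

end Pool.Agent.Results.MP_1e3e9c_ag.ToricKobayashi
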